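import Pool.Agent.Helper35.EAM.Spec2

/-! # EAM2: parts PEI and MEAS -/

set_option autoImplicit false

open MeasureTheory

namespace Pool.Agent.Helper91.EAM

open Pool.H47EA Pool.Agent.Helper35.EAM Pool.Agent.Helper35.EAM2
open Pool.Agent.Lib.helper12.Peierls (Surv endp vis hs cnt hs_sub word dual)

theorem t_PEI : S_PEI := by
  classical
  intro Ω K _ _ _ μ cl p r hl hp hr m
  let E : List (Fin 3 × K) → Set Ω := fun w =>
    {x | endp 0 w = (1, 0) ∧ (vis 0 w).Nodup ∧ ∀ s ∈ hs 0 w, cl x s.1 s.2}
  have h1 : ∀ w, μ (E w) ≤ r ^ (w.length + 2) := by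
    intro w
    by_cases h : endp 0 w = (1, 0) ∧ (vis 0 w).Nodup
    · have a1 := cnt w 0
      have a2 := hl (hs 0 w) ((hs_sub w 0).nodup h.2).of_map
      rw [h.1] at a1
      rw [show w.length + 2 = 3 * (hs 0 w).length by simp at a1; omega, pow_mul]
      refine le_trans (measure_mono fun c hc => ?_) (a2.trans ?_)
      · exact hc.2.2
      · gcongr
    · rw [show E w = ∅ from Set.eq_empty_of_forall_notMem fun c hc => h ⟨hc.1, hc.2.1⟩]; simp
  calc _ ≤ μ (⋃ n, ⋃ v : List.Vector (Fin 3 × K) n, E v.1) := by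
        refine measure_mono fun c hc => ?_
        obtain ⟨w, a, b, d⟩ := word (dual _ m 0 hc)
        exact Set.mem_iUnion₂.2 ⟨_, ⟨w, rfl⟩, by simpa using a, b, d⟩
    _ ≤ ∑' n : ℕ, 2⁻¹ ^ n * r ^ 2 := by
        refine (measure_iUnion_le _).trans (ENNReal.tsum_le_tsum fun n => ?_)
        refine (measure_iUnion_fintype_le _ _).trans ((Finset.sum_le_card_nsmul _ _ (r ^ (n + 2))
          fun v _ => (h1 v.1).trans_eq (by rw [v.2])).trans ?_)
        rw [Finset.card_univ, card_vector, nsmul_eq_mul, pow_add, ← mul_assoc]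
        gcongr
        push_cast
        rw [← mul_pow]
        gcongr
        simpa using hr
    _ = _ := by rw [ENNReal.tsum_mul_right, ENNReal.tsum_geometric]; simp

theorem meas_Jc {d : ℕ} (y z : Site d) : Measurable (fun J : Coupling d => Jc J y z) := by
  unfold Jc
  split_ifs
  · exact (measurable_of_finite sg).comp (measurable_pi_apply _)
  · exact measurable_const

theorem meas_cl (s : ℤ × ℤ) (k : KK) :
    MeasurableSet {x : Coupling 3 × Coupling 3 | cl x s k} := by
  have hne : ∀ (f : Coupling 3 × Coupling 3 → ℝ), Measurable f →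
      MeasurableSet {x | f x ≠ 1} := fun f hf => (hf (measurableSet_singleton 1)).compl
  cases k with
  | inl j =>
    have h1 : {x : Coupling 3 × Coupling 3 | cl x s (Sum.inl j)} =
        ⋂ q : ℕ, ⋂ _ : q < 60, {x | prodJ x.1 s j q ≠ 1} := by
      ext x
      simp only [cl, Set.mem_setOf_eq, Set.mem_iInter]
    rw [h1]
    refine MeasurableSet.iInter fun q => MeasurableSet.iInter fun _ => ?_
    apply hne (fun x => prodJ x.1 s j q)
    unfold prodJ
    exact Finset.measurable_prod _ fun i _ => (meas_Jc _ _).comp measurable_fst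
  | inr e =>
    exact hne (fun x => Jc x.2 (ce1 s e) (ce2 s e)) ((meas_Jc _ _).comp measurable_snd)

theorem meas_surv (n : ℕ) : ∀ p : ℤ × ℤ,
    MeasurableSet {x : Coupling 3 × Coupling 3 | Surv (cl x) n p} := by
  induction n with
  | zero =>
    intro p
    simp only [Surv, Set.setOf_true]
    exact MeasurableSet.univ
  | succ n ih =>
    intro p
    have h1 : {x : Coupling 3 × Coupling 3 | Surv (cl x) (n + 1) p} =
        (⋂ k : KK, {x | cl x p k}ᶜ) ∩
          ({x | Surv (cl x) n (p + (0, 1))} ∪ {x | Surv (cl x) n (p + (1, 1))}) := by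
      ext x
      simp only [Surv, Set.mem_setOf_eq, Set.mem_inter_iff, Set.mem_iInter, Set.mem_compl_iff,
        Set.mem_union]
    rw [h1]
    exact (MeasurableSet.iInter fun k => (meas_cl p k).compl).inter ((ih _).union (ih _))

theorem t_MEAS : S_MEAS := fun n => meas_surv n 0

end Pool.Agent.Helper91.EAM
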